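import Mathlib
import Pool.Agent.Work.MP_a78000_an.SobE

/-!
# MP_a78000_an, Q1: disproof in the full class of Sobolev homeomorphisms

There are bounded doubly connected domains `Ω` (a round annulus of modulus `1/2`) and `Ωs`, and a
smooth energy-minimal diffeomorphism `h` of `Ω` onto `Ωs`, with `Mod Ωs < log cosh (Mod Ω)`.
Energy-minimal is meant exactly as in the problem: `h ∈ ℋ(Ω, Ωs)` and `ℰ[h] ≤ ℰ[g]` for every
homeomorphism `g` of `Ω` onto `Ωs` which lies in `W^{1,2}(Ω)`.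
-/

set_option autoImplicit false

open Set MeasureTheory
open scoped ENNReal ContDiff

namespace Pool.Agent.Results.MP_a78000_an.SobolevMinimal

/-- `Ω` is a doubly connected domain of (finite) modulus `M`: it is open and an injective
holomorphic map sends it onto a round annulus `{r < |z| < R}`, `0 < r < R`, with
`M = log (R / r)`. -/
def HasModulus (Ω : Set ℂ) (M : ℝ) : Prop :=
  IsOpen Ω ∧ ∃ (r R : ℝ) (φ : ℂ → ℂ), 0 < r ∧ r < R ∧ DifferentiableOn ℂ φ Ω ∧ InjOn φ Ω ∧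
    φ '' Ω = {z : ℂ | r < ‖z‖ ∧ ‖z‖ < R} ∧ M = Real.log (R / r)

/-- `gx` and `gy` are the weak partial derivatives of `g` on `Ω` (integration by parts against
all smooth test functions with compact support in `Ω`). -/
def IsWeakGradient (Ω : Set ℂ) (g gx gy : ℂ → ℂ) : Prop :=
  ∀ φ : ℂ → ℝ, ContDiff ℝ ∞ φ → HasCompactSupport φ → tsupport φ ⊆ Ω →
    (∫ z in Ω, (fderiv ℝ φ z 1) • g z = -∫ z in Ω, φ z • gx z) ∧
    (∫ z in Ω, (fderiv ℝ φ z Complex.I) • g z = -∫ z in Ω, φ z • gy z)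

/-- `g ∈ W^{1,2}(Ω, ℂ)`, with weak partial derivatives `gx` and `gy`. -/
def IsSobolev (Ω : Set ℂ) (g gx gy : ℂ → ℂ) : Prop :=
  MemLp g 2 (volume.restrict Ω) ∧ MemLp gx 2 (volume.restrict Ω) ∧
    MemLp gy 2 (volume.restrict Ω) ∧ IsWeakGradient Ω g gx gy

/-- `g` is a homeomorphism of `Ω` onto `Ωs`. -/
def IsHomeo (Ω Ωs : Set ℂ) (g : ℂ → ℂ) : Prop :=
  ContinuousOn g Ω ∧ MapsTo g Ω Ωs ∧ ∃ k : ℂ → ℂ, ContinuousOn k Ωs ∧ MapsTo k Ωs Ω ∧
    (∀ z ∈ Ω, k (g z) = z) ∧ ∀ w ∈ Ωs, g (k w) = w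

/-- `g` is a (smooth) diffeomorphism of `Ω` onto `Ωs`. -/
def IsDiffeo (Ω Ωs : Set ℂ) (g : ℂ → ℂ) : Prop :=
  ContDiffOn ℝ ∞ g Ω ∧ MapsTo g Ω Ωs ∧ ∃ k : ℂ → ℂ, ContDiffOn ℝ ∞ k Ωs ∧ MapsTo k Ωs Ω ∧
    (∀ z ∈ Ω, k (g z) = z) ∧ ∀ w ∈ Ωs, g (k w) = w

/-- `g` belongs to `ℋ(Ω, Ωs)`, i.e. it is a homeomorphism of `Ω` onto `Ωs` in `W^{1,2}(Ω)`, and
its Dirichlet energy `ℰ[g] = ∫_Ω (|g_x|² + |g_y|²)` equals `e`. -/
def HasEnergy (Ω Ωs : Set ℂ) (g : ℂ → ℂ) (e : ℝ≥0∞) : Prop :=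
  IsHomeo Ω Ωs g ∧ ∃ gx gy : ℂ → ℂ, IsSobolev Ω g gx gy ∧
    e = ∫⁻ z in Ω, (‖gx z‖ₑ ^ 2 + ‖gy z‖ₑ ^ 2)

/-- `h` is an energy-minimal diffeomorphism of `Ω` onto `Ωs`: a diffeomorphism in `ℋ(Ω, Ωs)`
whose energy is the least one in `ℋ(Ω, Ωs)`. -/
def IsEnergyMinimalDiffeo (Ω Ωs : Set ℂ) (h : ℂ → ℂ) : Prop :=
  IsDiffeo Ω Ωs h ∧ ∃ e : ℝ≥0∞, HasEnergy Ω Ωs h e ∧
    ∀ (g : ℂ → ℂ) (e' : ℝ≥0∞), HasEnergy Ω Ωs g e' → e ≤ e'

open Pool.Agent.A78 in
theorem result : ∃ (Ω Ωs : Set ℂ) (M Ms : ℝ) (h : ℂ → ℂ),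
    Bornology.IsBounded Ω ∧ Bornology.IsBounded Ωs ∧
    HasModulus Ω M ∧ HasModulus Ωs Ms ∧
    IsEnergyMinimalDiffeo Ω Ωs h ∧
    Ms < Real.log (Real.cosh M) ∧
    -- in addition: `Ω` is the round annulus of modulus `1/2`, and the strict inequality holds for
    -- every conformal representation of `Ωs`
    M = 1/2 ∧ Ω = {z : ℂ | 1 < ‖z‖ ∧ ‖z‖ < Real.exp M} ∧
    ∀ M' : ℝ, HasModulus Ωs M' → M' < Real.log (Real.cosh M) := by
  obtain ⟨rs, ψ, hrs0, hrs1, hψd, hψi, hψs⟩ := Oms_uniformization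
  have hmod := modulus_lt hrs0 hrs1 hψd hψi hψs
  have hforall : ∀ M' : ℝ, HasModulus Oms M' → M' < Real.log (Real.cosh (1/2)) := by
    rintro M' ⟨-, r, R, φ, hr, hrR, hφd, hφi, hφs, rfl⟩
    have hR : 0 < R := hr.trans hrR
    have hRc : (R : ℂ) ≠ 0 := by exact_mod_cast hR.ne'
    have h1 := modulus_lt (rs := r / R) (ψ := fun z => φ z / (R : ℂ)) (div_nonneg hr.le hR.le)
      ((div_lt_one hR).mpr hrR) (hφd.div_const _)
      (fun z hz w hw hzw => hφi hz hw (by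
        have : φ z / (R : ℂ) = φ w / (R : ℂ) := hzw
        field_simp at this
        exact this)) (by
      have e : (fun z => φ z / (R : ℂ)) '' Oms = (fun z => z / (R : ℂ)) '' (φ '' Oms) := by
        rw [image_image]
      rw [e, hφs]
      ext z
      constructor
      · rintro ⟨w, hw, rfl⟩
        simp only [mem_ofPred_eq, norm_div, Complex.norm_real, Real.norm_eq_abs, abs_of_pos hR]
        exact ⟨(div_lt_div_iff_of_pos_right hR).mpr hw.1, (div_lt_one hR).mpr hw.2⟩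
      · rintro ⟨h1, h2⟩
        refine ⟨z * R, ⟨?_, ?_⟩, ?_⟩
        · rw [norm_mul, Complex.norm_real, Real.norm_eq_abs, abs_of_pos hR]
          rwa [div_lt_iff₀ hR] at h1
        · rw [norm_mul, Complex.norm_real, Real.norm_eq_abs, abs_of_pos hR]
          nlinarith
        · field_simp)
    have h2 : Real.log (R / r) = -Real.log (r / R) := by
      rw [← Real.log_inv, inv_div]
    rw [h2]
    exact h1.2
  have hms : HasModulus Oms (Real.log (1 / rs)) :=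
    ⟨h_inv_facts.1, rs, 1, ψ, hmod.1, hrs1, hψd, hψi, hψs, rfl⟩
  have hm : HasModulus Om (1/2) := by
    refine ⟨isOpen_Om, 1, Real.exp (1/2), fun z => z, one_pos, ?_, differentiableOn_id,
      fun z _ w _ h => h, ?_, ?_⟩
    · rw [Real.one_lt_exp_iff]; norm_num
    · simp only [image_id']; rfl
    · rw [div_one, Real.log_exp]
  have hhm : MapsTo h Om Oms := fun z hz => ⟨z, hz, rfl⟩
  have hkm : MapsTo (Function.invFunOn h Om) Oms Om := fun w hw => Function.invFunOn_mem hw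
  have hhk : ∀ w ∈ Oms, h (Function.invFunOn h Om w) = w := fun w hw => Function.invFunOn_eq hw
  have hkh : ∀ z ∈ Om, Function.invFunOn h Om (h z) = z := fun z hz =>
    h_injOn (hkm (hhm hz)) hz (hhk _ (hhm hz))
  have hvol : IsFiniteMeasure (volume.restrict Om) := ⟨by
    rw [Measure.restrict_apply_univ]; exact volume_Om_lt_top⟩
  have hfd : ContinuousOn (fderiv ℝ h) Om :=
    h_contDiffOn1.continuousOn_fderiv_of_isOpen isOpen_Om le_rfl
  have hsplit : ∀ (a b : ℂ), (((‖a‖₊ ^ 2 + ‖b‖₊ ^ 2 : NNReal)) : ℝ≥0∞) = ‖a‖ₑ ^ 2 + ‖b‖ₑ ^ 2 := by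
    intro a b
    push_cast
    rfl
  have hen : energy h = ∫⁻ z in Om, (‖fderiv ℝ h z 1‖ₑ ^ 2 + ‖fderiv ℝ h z Complex.I‖ₑ ^ 2) := by
    unfold energy
    simp only [hsplit]
  have hmem : ∀ v : ℂ, (∫⁻ z in Om, ‖fderiv ℝ h z v‖ₑ ^ 2) < ⊤ →
      MemLp (fun z => fderiv ℝ h z v) 2 (volume.restrict Om) := by
    intro v hv
    refine ⟨(hfd.clm_apply continuousOn_const).aestronglyMeasurable isOpen_Om.measurableSet, ?_⟩
    rw [eLpNorm_lt_top_iff_lintegral_rpow_enorm_lt_top (by norm_num) (by norm_num)]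
    simpa using hv
  have hhE : HasEnergy Om Oms h (energy h) := by
    refine ⟨⟨h_contDiffOn1.continuousOn, hhm, _, (h_inv_facts.2).continuousOn, hkm, hkh, hhk⟩,
      fun z => fderiv ℝ h z 1, fun z => fderiv ℝ h z Complex.I, ⟨?_, ?_, ?_, ?_⟩, hen⟩
    · apply MemLp.of_bound
        (h_contDiffOn1.continuousOn.aestronglyMeasurable isOpen_Om.measurableSet) 5
      rw [ae_restrict_iff' isOpen_Om.measurableSet]
      filter_upwards with z hz
      exact H_upper (F_mem (S_sub_strip9 (log_mem_S hz)))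
    · apply hmem
      refine lt_of_le_of_lt ?_ energy_h_lt_top
      rw [hen]
      exact lintegral_mono fun z => le_self_add
    · apply hmem
      refine lt_of_le_of_lt ?_ energy_h_lt_top
      rw [hen]
      exact lintegral_mono fun z => le_add_self
    · exact weakGrad_of_contDiffOn isOpen_Om h_contDiffOn1
  refine ⟨Om, Oms, 1/2, Real.log (1 / rs), h, bounded_Om, bounded_Oms, hm, hms, ⟨⟨?_, hhm, _,
    h_inv_contDiffOn_n (by norm_cast), hkm, hkh, hhk⟩, energy h, hhE, ?_⟩, hforall _ hms, rfl,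
    rfl, hforall⟩
  · intro z hz
    exact (h_contDiffAt_n _ hz).contDiffWithinAt
  · rintro g e' ⟨⟨hgc, hgm, k, hkc, hkm', hkg, hgk⟩, gx, gy, ⟨-, hx, hy, hw⟩, rfl⟩
    have := sobolev_bound hgc hgm hkc hkm' hkg hgk hx.1 hy.1 hw
    simpa only [hsplit] using this

end Pool.Agent.Results.MP_a78000_an.SobolevMinimal
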